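import Pool.Agent.H61.EFF2

/-!
The strong form of the Erdős–Frankl–Füredi conjecture on cover-free families (Q2 of the problem):
a `t`-cover-free family with more members than points needs at least `(t+1)^2` points.
-/

set_option autoImplicit false
set_option linter.unusedSectionVars false

namespace Pool.Agent.Results.MP_0b1105_co.EFFStrongForm

open Finset

/-- `F` is `t`-cover-free: no member is contained in the union of at most `t` other members. -/
def CoverFree {V : Type*} [DecidableEq V] (t : ℕ) (F : Finset (Finset V)) : Prop :=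
  ∀ A ∈ F, ∀ S ⊆ F.erase A, S.card ≤ t → ¬ A ⊆ S.sup id

/-- the `n` for which some `t`-cover-free family of subsets of an `n`-set has more than `n`
members -/
def Large (t : ℕ) : Set ℕ :=
  {n : ℕ | ∃ F : Finset (Finset (Fin n)), n < F.card ∧ CoverFree t F}

/-- the least such `n` -/
noncomputable def Nstar (t : ℕ) : ℕ := sInf (Large t)

/-- the characteristic vector of a set of points -/
def chi {V : Type*} [DecidableEq V] (A : Finset V) : V → ℝ := fun v => if v ∈ A then 1 else 0

lemma linInd {V : Type*} [Fintype V] [DecidableEq V] {t : ℕ} {F : Finset (Finset V)}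
    (hF : CoverFree t F) (hV : Fintype.card V < (t + 1) ^ 2) :
    LinearIndependent ℝ (fun A : F => chi A.1) := by
  classical
  rw [Fintype.linearIndependent_iff]
  intro g hg
  by_contra hne
  push Not at hne
  obtain ⟨i, hi⟩ := hne
  let c : Finset V → ℝ := fun A => if h : A ∈ F then g ⟨A, h⟩ else 0
  have hc : ∀ i : F, c i.1 = g i := by
    intro i
    simp only [c, i.2, dif_pos, Subtype.coe_eta]
  have h1 := H61.EFF2.dep_card (t := t) (X := Finset.univ) (F := F)
    (fun A _ => Finset.subset_univ A) hF c ⟨i.1, i.2, by rw [hc]; exact hi⟩ (by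
      intro v
      have h2 := congrFun hg v
      rw [Finset.sum_apply] at h2
      simp only [Pi.smul_apply, smul_eq_mul, chi, mul_ite, mul_one, mul_zero,
        Pi.zero_apply] at h2
      have h3 : ∑ A ∈ F, (if v ∈ A then c A else 0) = ∑ x : F, if v ∈ x.1 then g x else 0 := by
        rw [← Finset.sum_coe_sort F (fun A => if v ∈ A then c A else 0)]
        refine Finset.sum_congr rfl fun A _ => ?_
        rw [hc]
      rw [Finset.sum_filter, h3, h2])
  rw [Finset.card_univ] at h1
  omega

lemma card_le {V : Type*} [Fintype V] [DecidableEq V] {t : ℕ} {F : Finset (Finset V)}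
    (hF : CoverFree t F) (hV : Fintype.card V < (t + 1) ^ 2) : F.card ≤ Fintype.card V := by
  have h := (linInd hF hV).fintype_card_le_finrank
  simpa using h

/-- transfer to `Fin n` -/
lemma transfer {P L : Type*} [Fintype P] [DecidableEq P] [Fintype L] [DecidableEq L]
    {n q t : ℕ} (hn : Fintype.card P = n) (hL : n < Fintype.card L) (l : L → Finset P)
    (hq : ∀ i, (l i).card = q) (hint : ∀ i j, i ≠ j → (l i ∩ l j).card ≤ 1) (htq : t < q)
    (hq2 : 2 ≤ q) :
    ∃ F : Finset (Finset (Fin n)), n < F.card ∧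
      ∀ A ∈ F, ∀ S ⊆ F.erase A, S.card ≤ t → ¬ A ⊆ S.sup id := by
  classical
  let e : P ≃ Fin n := Fintype.equivFinOfCardEq hn
  let l' : L → Finset (Fin n) := fun i => (l i).map e.toEmbedding
  have hc : ∀ i, (l' i).card = q := fun i => by
    simp only [l', Finset.card_map, hq]
  have hi : ∀ i j, i ≠ j → (l' i ∩ l' j).card ≤ 1 := fun i j hij => by
    simp only [l', ← Finset.map_inter, Finset.card_map]
    exact hint i j hij
  have hinj : Function.Injective l' := by
    intro i j hij
    by_contra hne
    have := hi i j hne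
    rw [hij, Finset.inter_self, hc] at this
    omega
  refine ⟨Finset.univ.image l', ?_, ?_⟩
  · rw [Finset.card_image_of_injective _ hinj, Finset.card_univ]
    exact hL
  · intro A hA S hS hSc hAS
    obtain ⟨i, _, rfl⟩ := Finset.mem_image.1 hA
    have h1 : l' i = S.biUnion (fun B => l' i ∩ B) := by
      ext x
      simp only [Finset.mem_biUnion, Finset.mem_inter]
      constructor
      · intro hx
        obtain ⟨B, hB, hxB⟩ := Finset.mem_sup.1 (hAS hx)
        exact ⟨B, hB, hx, hxB⟩
      · rintro ⟨B, _, hx, _⟩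
        exact hx
    have h2 : (l' i).card ≤ ∑ B ∈ S, (l' i ∩ B).card := by
      conv_lhs => rw [h1]
      exact Finset.card_biUnion_le
    have h3 : ∑ B ∈ S, (l' i ∩ B).card ≤ ∑ B ∈ S, 1 := by
      apply Finset.sum_le_sum
      intro B hB
      have hB' := Finset.mem_erase.1 (hS hB)
      obtain ⟨j, _, rfl⟩ := Finset.mem_image.1 hB'.2
      apply hi
      rintro rfl
      exact hB'.1 rfl
    rw [Finset.sum_const, smul_eq_mul, mul_one] at h3
    rw [hc] at h2
    omega

/-- the lines of the affine plane over a finite field -/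
def line {K : Type*} [Field K] [Fintype K] [DecidableEq K] : Option K × K → Finset (K × K)
  | (some m, b) => Finset.univ.image (fun x => (x, m * x + b))
  | (none, c) => Finset.univ.image (fun y => (c, y))

lemma line_card {K : Type*} [Field K] [Fintype K] [DecidableEq K] (i : Option K × K) :
    (line i).card = Fintype.card K := by
  rcases i with ⟨_ | m, b⟩
  · simp only [line]
    rw [Finset.card_image_of_injective, Finset.card_univ]
    intro x y h
    exact (Prod.mk.injEq _ _ _ _ ▸ h).2
  · simp only [line]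
    rw [Finset.card_image_of_injective, Finset.card_univ]
    intro x y h
    exact (Prod.mk.injEq _ _ _ _ ▸ h).1

lemma line_inter {K : Type*} [Field K] [Fintype K] [DecidableEq K] (i j : Option K × K)
    (hij : i ≠ j) : (line i ∩ line j).card ≤ 1 := by
  rw [Finset.card_le_one]
  rintro ⟨x, y⟩ h1 ⟨x', y'⟩ h2
  rw [Finset.mem_inter] at h1 h2
  rcases i with ⟨_ | m, b⟩ <;> rcases j with ⟨_ | m', b'⟩
  · simp only [line, Finset.mem_image, Finset.mem_univ, true_and, Prod.mk.injEq] at h1 h2
    obtain ⟨⟨_, h3, _⟩, ⟨_, h4, _⟩⟩ := h1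
    exact absurd (by rw [h3, h4]) hij
  · simp only [line, Finset.mem_image, Finset.mem_univ, true_and, Prod.mk.injEq] at h1 h2
    obtain ⟨⟨_, h3, _⟩, ⟨a, h4, h5⟩⟩ := h1
    obtain ⟨⟨_, h6, _⟩, ⟨a', h7, h8⟩⟩ := h2
    subst h4 h7
    have : a = a' := h3.symm.trans h6
    subst this
    rw [Prod.mk.injEq]
    exact ⟨rfl, h5.symm.trans h8⟩
  · simp only [line, Finset.mem_image, Finset.mem_univ, true_and, Prod.mk.injEq] at h1 h2
    obtain ⟨⟨a, h4, h5⟩, ⟨_, h3, _⟩⟩ := h1
    obtain ⟨⟨a', h7, h8⟩, ⟨_, h6, _⟩⟩ := h2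
    subst h4 h7
    have : a = a' := h3.symm.trans h6
    subst this
    rw [Prod.mk.injEq]
    exact ⟨rfl, h5.symm.trans h8⟩
  · simp only [line, Finset.mem_image, Finset.mem_univ, true_and, Prod.mk.injEq] at h1 h2
    obtain ⟨⟨a, h3, h4⟩, ⟨a2, h5, h6⟩⟩ := h1
    obtain ⟨⟨c, h7, h8⟩, ⟨c2, h9, h10⟩⟩ := h2
    subst h3 h7
    subst h5 h9
    by_cases hm : m = m'
    · subst hm
      exfalso
      apply hij
      have : b = b' := by
        have := h4.trans h6.symm
        exact add_left_cancel this
      rw [this]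
    · have e1 : (m - m') * a2 = b' - b := by linear_combination h4 - h6
      have e2 : (m - m') * c2 = b' - b := by linear_combination h8 - h10
      have e3 : a2 = c2 := mul_left_cancel₀ (sub_ne_zero.2 hm) (e1.trans e2.symm)
      subst e3
      rw [Prod.mk.injEq]
      exact ⟨rfl, h4.symm.trans h8⟩

lemma plane {q t : ℕ} (hq : IsPrimePow q) (ht : t < q) : q ^ 2 ∈ Large t := by
  classical
  have hK : Nonempty (Field (Fin q)) := by
    rw [Fintype.nonempty_field_iff, Fintype.card_fin]
    exact hq
  obtain ⟨K⟩ := hK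
  let _ := K
  refine transfer (P := Fin q × Fin q) (L := Option (Fin q) × Fin q) (q := q) ?_ ?_
    line (fun i => by rw [line_card, Fintype.card_fin]) line_inter ht hq.two_le
  · rw [Fintype.card_prod, Fintype.card_fin]
    ring
  · rw [Fintype.card_prod, Fintype.card_option, Fintype.card_fin]
    have := hq.pos
    nlinarith

/-- (a) `N*(t) ≥ (t+1)^2` for every `t ≥ 1`; (b) more generally a `t`-cover-free family on fewer
than `(t+1)^2` points has linearly independent characteristic vectors (in particular at most as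
many members as points); (c) `N*(q-1) = q^2` for every prime power `q`. -/
theorem result :
    (∀ t : ℕ, 1 ≤ t → (Large t).Nonempty ∧ (t + 1) ^ 2 ≤ Nstar t) ∧
    (∀ (t : ℕ) (V : Type) [Fintype V] [DecidableEq V] (F : Finset (Finset V)),
      CoverFree t F → Fintype.card V < (t + 1) ^ 2 →
        LinearIndependent ℝ (fun A : F => chi A.1) ∧ F.card ≤ Fintype.card V) ∧
    (∀ q : ℕ, IsPrimePow q → Nstar (q - 1) = q ^ 2) := by
  have hne : ∀ t : ℕ, (Large t).Nonempty := by
    intro t
    obtain ⟨p, hp1, hp2⟩ := Nat.exists_infinite_primes (t + 1)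
    exact ⟨p ^ 2, plane hp2.isPrimePow (by omega)⟩
  have hlow : ∀ t : ℕ, (t + 1) ^ 2 ≤ Nstar t := by
    intro t
    obtain ⟨F, hF1, hF2⟩ := Nat.sInf_mem (hne t)
    by_contra hlt
    push Not at hlt
    have h1 := card_le hF2 (by rw [Fintype.card_fin]; exact hlt)
    rw [Fintype.card_fin] at h1
    exact absurd hF1 (not_lt.2 h1)
  refine ⟨fun t _ => ⟨hne t, hlow t⟩, fun t V _ _ F hF hV => ⟨linInd hF hV, card_le hF hV⟩, ?_⟩
  intro q hq
  have hq1 := hq.two_le
  apply le_antisymm
  · exact Nat.sInf_le (plane hq (by omega))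
  · have := hlow (q - 1)
    rwa [Nat.sub_add_cancel (by omega)] at this

end Pool.Agent.Results.MP_0b1105_co.EFFStrongForm
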